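import Mathlib
import Pool.Agent.Lib.H59.SchinzelDefs
import Pool.Agent.Lib.H59.SchinzelMertens

/-!
# An upper bound of the conjectured order, uniform in `N`

For given degrees there is a constant `C` such that, for all `F_1, …, F_g, G` of these degrees and
all large admissible `N`,
`Q_1(N) ≤ C · X / log^(g+1) X · (h_0 h_1 ⋯ h_g)⁻¹ · 𝔖(N)`.
-/

open Finset Polynomial Filter Topology Pool.Agent.Lib.H59

namespace Pool.Agent.Results.MP_0bf1d2_nt.UniformUpperBound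

theorem result (g : ℕ) (h : Fin g → ℕ) (h₀ : ℕ) (hh : ∀ i, 1 ≤ h i) (hh₀ : 1 ≤ h₀) :
    ∃ K : ℝ, 0 < K ∧ ∀ (F : Fin g → ℤ[X]) (G : ℤ[X]),
      (∀ i, Irreducible (F i)) → (∀ i, (F i).natDegree = h i) →
      G.natDegree = h₀ → 0 < G.leadingCoeff →
      ∃ N₀ : ℕ, ∀ N : ℕ, N₀ ≤ N → Admissible F G N →
        (∃ z₀ : ℕ, ∀ z : ℕ, z₀ ≤ z → (primeCount F G N : ℝ) ≤
          K * ((argCount G N : ℝ) / (Real.log (argCount G N)) ^ (g + 1) *
            ((h₀ : ℝ) * ∏ i, (h i : ℝ))⁻¹ * seriesTrunc F G N z)) ∧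
        ∀ S : ℝ, Tendsto (seriesTrunc F G N) atTop (𝓝 S) → (primeCount F G N : ℝ) ≤
          K * ((argCount G N : ℝ) / (Real.log (argCount G N)) ^ (g + 1) *
            ((h₀ : ℝ) * ∏ i, (h i : ℝ))⁻¹ * S) := by
  refine ⟨mainConst g h h₀, mainConst_pos g h h₀ hh hh₀, fun F G hF hFd hGd hGl => ?_⟩
  obtain ⟨N₀, hN₀⟩ := eventually_atTop.mp (main_upper g h h₀ hh hh₀ F G hF hFd hGd hGl)
  refine ⟨N₀, fun N hN hadm => ?_⟩
  have hz := hN₀ N hN hadm
  refine ⟨eventually_atTop.mp hz, fun S hS => ?_⟩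
  exact ge_of_tendsto ((hS.const_mul _).const_mul _) hz

end Pool.Agent.Results.MP_0bf1d2_nt.UniformUpperBound
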